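import Mathlib

/-!
# The product of two Carleman operators need not be a Carleman operator

On `L²(ℝ)` let `I_n = [n, n+1)`, `h(y) = exp (-y²)`, `c_n = 1 / ∫_{I_n} h`. Let `B` be the maximal
operator with the Carleman kernel `∑ c_n 1_{I_n}(x) 1_{I_n}(y)` and let `A` be the bounded rank one
operator `A f = (∫ h f) g`, `g = 1_{I_0}`. Then `A B 1_{I_n} = g` for all `n`, so a kernel `K` of
`A B` satisfies `∫_{I_n} K(x,y) dy = g(x)` for all `n`, and `K(x,·)` is not in `L²` if `g(x) ≠ 0`.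
-/

set_option autoImplicit false

open MeasureTheory
open scoped ENNReal ComplexConjugate

namespace Pool.Agent.Results.MP_fd0bc0_an.RankOneTimesBlock

/-- The Hilbert space `L²(-∞, ∞)`. -/
abbrev E : Type := Lp ℂ 2 (volume : Measure ℝ)

/-- A Carleman kernel on `ℝ × ℝ`: measurable and `k(x, ·) ∈ L²` for almost every `x`. -/
def IsCarlemanKernel (k : ℝ → ℝ → ℂ) : Prop :=
  AEStronglyMeasurable (Function.uncurry k) ((volume : Measure ℝ).prod volume) ∧
    ∀ᵐ x : ℝ, MemLp (k x) 2 volume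

/-- The (possibly unbounded) operator `A` is a Carleman operator. -/
def IsCarleman (A : E →ₗ.[ℂ] E) : Prop :=
  ∃ k : ℝ → ℝ → ℂ, IsCarlemanKernel k ∧
    ∀ f : A.domain, ∀ᵐ x : ℝ, (A f : ℝ → ℂ) x = ∫ y, k x y * ((f : E) : ℝ → ℂ) y

/-- `C` is the product `A B`, with domain `{f ∈ D(B) : B f ∈ D(A)}`: the pair `(f, g)` is in the
graph of `C` iff `g = A u`, `u = B f` for some `u ∈ D(A)`, `f ∈ D(B)`. -/
def IsProduct (A B C : E →ₗ.[ℂ] E) : Prop :=
  ∀ f g : E, (f, g) ∈ C.graph ↔ ∃ u : E, (f, u) ∈ B.graph ∧ (u, g) ∈ A.graph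

/-- The product `A B` with domain `{f ∈ D(B) : B f ∈ D(A)}`. -/
noncomputable def prodOp (A B : E →ₗ.[ℂ] E) : E →ₗ.[ℂ] E where
  domain := (A.domain.comap B.toFun).map B.domain.subtype
  toFun :=
    { toFun := fun f => A ⟨B ⟨f, by
          obtain ⟨g, -, hg⟩ := f.2
          rw [← hg]
          exact g.2⟩, by
          obtain ⟨f, g, hgA, rfl⟩ := f
          exact hgA⟩
      map_add' := fun f g => by
        rw [← LinearPMap.map_add]
        congr 1
        ext1
        push_cast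
        rw [← LinearPMap.map_add]
        rfl
      map_smul' := fun c f => by
        rw [RingHom.id_apply, ← LinearPMap.map_smul]
        congr 1
        ext1
        push_cast
        rw [← LinearPMap.map_smul]
        rfl }

theorem mem_prodOp {A B : E →ₗ.[ℂ] E} {f : E} :
    f ∈ (prodOp A B).domain ↔ ∃ h : f ∈ B.domain, B ⟨f, h⟩ ∈ A.domain := by
  constructor
  · rintro ⟨g, hg, rfl⟩
    exact ⟨g.2, hg⟩
  · rintro ⟨h, h'⟩
    exact ⟨⟨f, h⟩, h', rfl⟩

theorem isProduct_prodOp (A B : E →ₗ.[ℂ] E) : IsProduct A B (prodOp A B) := by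
  intro f g
  constructor
  · intro h
    rw [LinearPMap.mem_graph_iff] at h
    obtain ⟨⟨f', hf'⟩, rfl, rfl⟩ := h
    obtain ⟨h1, h2⟩ := mem_prodOp.1 hf'
    exact ⟨B ⟨f', h1⟩, LinearPMap.mem_graph B ⟨f', h1⟩, LinearPMap.mem_graph A ⟨B ⟨f', h1⟩, h2⟩⟩
  · rintro ⟨u, h1, h2⟩
    rw [LinearPMap.mem_graph_iff] at h1 h2
    obtain ⟨⟨f', hf'⟩, rfl, rfl⟩ := h1
    obtain ⟨⟨u', hu'⟩, h3, rfl⟩ := h2
    simp only at h3
    subst h3
    exact LinearPMap.mem_graph (prodOp A B) ⟨f', mem_prodOp.2 ⟨hf', hu'⟩⟩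

section maximal

variable (k : ℝ → ℝ → ℂ) (hk : ∀ x, MemLp (k x) 2 volume)

include hk

theorem integrable_mul (x : ℝ) (f : E) : Integrable (fun y => k x y * (f : ℝ → ℂ) y) volume :=
  (hk x).integrable_mul (Lp.memLp f)

theorem integral_add' (x : ℝ) (f g : E) : ∫ y, k x y * ((f + g : E) : ℝ → ℂ) y =
    (∫ y, k x y * (f : ℝ → ℂ) y) + ∫ y, k x y * (g : ℝ → ℂ) y := by
  rw [← integral_add (integrable_mul k hk x f) (integrable_mul k hk x g)]
  refine integral_congr_ae ?_
  filter_upwards [Lp.coeFn_add f g] with y hy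
  rw [hy, Pi.add_apply, mul_add]

omit hk in
theorem integral_smul' (x : ℝ) (c : ℂ) (f : E) : ∫ y, k x y * ((c • f : E) : ℝ → ℂ) y =
    c * ∫ y, k x y * (f : ℝ → ℂ) y := by
  rw [← integral_const_mul]
  refine integral_congr_ae ?_
  filter_upwards [Lp.coeFn_smul c f] with y hy
  rw [hy, Pi.smul_apply, smul_eq_mul]
  ring

/-- The maximal operator with the kernel `k`. -/
noncomputable def maxOp : E →ₗ.[ℂ] E where
  domain :=
    { carrier := {f | MemLp (fun x => ∫ y, k x y * (f : ℝ → ℂ) y) 2 volume}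
      add_mem' := by
        intro f g hf hg
        have : (fun x => ∫ y, k x y * ((f + g : E) : ℝ → ℂ) y) =
            (fun x => ∫ y, k x y * (f : ℝ → ℂ) y) + fun x => ∫ y, k x y * (g : ℝ → ℂ) y := by
          funext x
          exact integral_add' k hk x f g
        show MemLp _ 2 volume
        rw [this]
        exact MemLp.add hf hg
      zero_mem' := by
        have : (fun x => ∫ y, k x y * ((0 : E) : ℝ → ℂ) y) = fun _ => 0 := by
          funext x
          have h1 := integral_smul' k x 0 (0 : E)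
          rw [zero_smul, zero_mul] at h1
          exact h1
        show MemLp _ 2 volume
        rw [this]
        exact MemLp.zero'
      smul_mem' := by
        intro c f hf
        have : (fun x => ∫ y, k x y * ((c • f : E) : ℝ → ℂ) y) =
            c • fun x => ∫ y, k x y * (f : ℝ → ℂ) y := by
          funext x
          exact integral_smul' k x c f
        show MemLp _ 2 volume
        rw [this]
        exact MemLp.const_smul hf c }
  toFun :=
    { toFun := fun f => MemLp.toLp _ f.2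
      map_add' := by
        rintro ⟨f, hf⟩ ⟨g, hg⟩
        rw [← MemLp.toLp_add]
        refine MemLp.toLp_congr _ _ (Filter.Eventually.of_forall fun x => ?_)
        exact integral_add' k hk x f g
      map_smul' := by
        rintro c ⟨f, hf⟩
        rw [RingHom.id_apply, ← MemLp.toLp_const_smul]
        refine MemLp.toLp_congr _ _ (Filter.Eventually.of_forall fun x => ?_)
        exact integral_smul' k x c f }

theorem maxOp_isCarleman (hm : AEStronglyMeasurable (Function.uncurry k)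
    ((volume : Measure ℝ).prod volume)) : IsCarleman (maxOp k hk) :=
  ⟨k, ⟨hm, Filter.Eventually.of_forall hk⟩, fun f => MemLp.coeFn_toLp f.2⟩

end maximal

/-- The interval `[n, n+1)`. -/
def J (n : ℤ) : Set ℝ := Set.Ico (n : ℝ) (n + 1)

theorem mem_J (n : ℤ) (y : ℝ) : y ∈ J n ↔ ⌊y⌋ = n := by
  rw [J, Set.mem_Ico, Int.floor_eq_iff]

theorem J_meas (n : ℤ) : MeasurableSet (J n) := measurableSet_Ico

theorem J_vol (n : ℤ) : volume (J n) = 1 := by simp [J]

theorem J_ne (n : ℤ) : volume (J n) ≠ ∞ := by rw [J_vol]; simp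

/-- The function `1_{[n, n+1)}`. -/
noncomputable def e (n : ℤ) : E := indicatorConstLp 2 (J_meas n) (J_ne n) (1 : ℂ)

theorem e_coe (n : ℤ) : (e n : ℝ → ℂ) =ᵐ[volume] (J n).indicator fun _ => 1 :=
  indicatorConstLp_coeFn

theorem inner_e (n : ℤ) (f : E) : inner ℂ (e n) f = ∫ y in J n, (f : ℝ → ℂ) y :=
  L2.inner_indicatorConstLp_one (J_meas n) (J_ne n) f

theorem e_orthonormal : Orthonormal ℂ e := by
  rw [orthonormal_iff_ite]
  intro n m
  rw [inner_e, setIntegral_congr_ae (J_meas n)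
    (g := fun y => (J m).indicator (fun _ => (1 : ℂ)) y) ((e_coe m).mono fun y hy _ => hy)]
  by_cases h : n = m
  · subst h
    rw [if_pos rfl, setIntegral_indicator (J_meas n), Set.inter_self]
    simp [J_vol, Measure.real]
  · rw [if_neg h, setIntegral_indicator (J_meas m)]
    have : J n ∩ J m = ∅ := by
      ext y
      simp only [Set.mem_inter_iff, mem_J, Set.mem_empty_iff_false, iff_false, not_and]
      rintro rfl h'
      exact h h'
    rw [this]
    simp

theorem memLp_h : MemLp (fun y : ℝ => ((Real.exp (-y ^ 2) : ℝ) : ℂ)) 2 volume := by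
  have hm : AEStronglyMeasurable (fun y : ℝ => ((Real.exp (-y ^ 2) : ℝ) : ℂ)) volume := by
    apply Continuous.aestronglyMeasurable
    fun_prop
  rw [memLp_two_iff_integrable_sq_norm hm]
  have := integrable_exp_neg_mul_sq (b := 2) two_pos
  refine this.congr (Filter.Eventually.of_forall fun y => ?_)
  simp only [Complex.norm_real, Real.norm_eq_abs, Real.abs_exp]
  rw [← Real.exp_nat_mul]
  congr 1
  push_cast
  ring

/-- The Gaussian. -/
noncomputable def h : E := memLp_h.toLp _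

/-- The integral of the Gaussian over `[n, n+1)`. -/
noncomputable def w (n : ℤ) : ℂ := inner ℂ (e n) h

theorem w_ne (n : ℤ) : w n ≠ 0 := by
  rw [w, inner_e]
  have h1 : ∫ y in J n, (h : ℝ → ℂ) y = ∫ y in J n, ((Real.exp (-y ^ 2) : ℝ) : ℂ) :=
    setIntegral_congr_ae (J_meas n) (memLp_h.coeFn_toLp.mono fun y hy _ => hy)
  rw [h1, integral_complex_ofReal]
  rw [Complex.ofReal_ne_zero]
  apply ne_of_gt
  have h2 : ∫ y in J n, Real.exp (-y ^ 2) = ∫ y in (n : ℝ)..(n + 1), Real.exp (-y ^ 2) := by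
    rw [intervalIntegral.integral_of_le (by linarith), J, integral_Ico_eq_integral_Ioc]
  have h3 : 0 < ∫ y in (n : ℝ)..(n + 1), Real.exp (-y ^ 2) := by
    apply intervalIntegral.intervalIntegral_pos_of_pos
    · apply Continuous.intervalIntegrable
      fun_prop
    · intro y
      exact Real.exp_pos _
    · linarith
  rw [← h2] at h3
  exact h3

/-- The kernel `∑ c_n 1_{I_n}(x) 1_{I_n}(y)`. -/
noncomputable def kB (x y : ℝ) : ℂ := if ⌊x⌋ = ⌊y⌋ then (w ⌊x⌋)⁻¹ else 0

theorem kB_eq (x : ℝ) : kB x = (J ⌊x⌋).indicator fun _ => (w ⌊x⌋)⁻¹ := by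
  funext y
  by_cases hy : ⌊x⌋ = ⌊y⌋
  · rw [kB, if_pos hy, Set.indicator_of_mem ((mem_J _ _).2 hy.symm)]
  · rw [kB, if_neg hy, Set.indicator_of_notMem]
    intro h1
    exact hy ((mem_J _ _).1 h1).symm

theorem kB_memLp (x : ℝ) : MemLp (kB x) 2 volume := by
  rw [kB_eq]
  exact memLp_indicator_const 2 (J_meas _) _ (Or.inr (J_ne _))

theorem kB_meas : AEStronglyMeasurable (Function.uncurry kB) ((volume : Measure ℝ).prod volume) := by
  apply Measurable.aestronglyMeasurable
  refine Measurable.ite ?_ ?_ measurable_const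
  · exact measurableSet_eq_fun (Int.measurable_floor.comp measurable_fst)
      (Int.measurable_floor.comp measurable_snd)
  · exact (measurable_from_top (f := fun n : ℤ => (w n)⁻¹)).comp
      (Int.measurable_floor.comp measurable_fst)

/-- The operator `B`. -/
noncomputable def B : E →ₗ.[ℂ] E := maxOp kB kB_memLp

/-- The operator `A f = ⟨h, f⟩ g` with `g = 1_{[0,1)}`. -/
noncomputable def A : E →ₗ.[ℂ] E :=
  (((innerSL ℂ h).smulRight (e 0) : E →L[ℂ] E) : E →ₗ[ℂ] E).toPMap ⊤

theorem A_apply (f : A.domain) : A f = inner ℂ h (f : E) • e 0 := rfl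

theorem A_carleman : IsCarleman A := by
  refine ⟨fun x y => ((J 0).indicator (fun _ => (1 : ℂ)) x) * conj ((Real.exp (-y ^ 2) : ℝ) : ℂ),
    ⟨?_, Filter.Eventually.of_forall fun x => ?_⟩, fun f => ?_⟩
  · apply Measurable.aestronglyMeasurable
    refine Measurable.mul ((measurable_const.indicator (J_meas 0)).comp measurable_fst) ?_
    apply Continuous.measurable
    fun_prop
  · have h1 : (fun y : ℝ => conj ((Real.exp (-y ^ 2) : ℝ) : ℂ)) =
        fun y : ℝ => ((Real.exp (-y ^ 2) : ℝ) : ℂ) := by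
      funext y
      exact Complex.conj_ofReal _
    have h2 : MemLp (fun y : ℝ => conj ((Real.exp (-y ^ 2) : ℝ) : ℂ)) 2 volume := by
      rw [h1]
      exact memLp_h
    exact h2.const_mul _
  · have h1 : (A f : ℝ → ℂ) =ᵐ[volume] fun x => inner ℂ h (f : E) * ((J 0).indicator (fun _ => 1) x) := by
      rw [A_apply]
      filter_upwards [Lp.coeFn_smul (inner ℂ h (f : E)) (e 0), e_coe 0] with x hx hx'
      rw [hx, Pi.smul_apply, hx', smul_eq_mul]
    filter_upwards [h1] with x hx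
    rw [hx]
    have h2 : inner ℂ h (f : E) = ∫ y, conj ((Real.exp (-y ^ 2) : ℝ) : ℂ) * ((f : E) : ℝ → ℂ) y := by
      rw [L2.inner_def]
      refine integral_congr_ae ?_
      filter_upwards [memLp_h.coeFn_toLp] with y hy
      have hy' : (h : ℝ → ℂ) y = ((Real.exp (-y ^ 2) : ℝ) : ℂ) := hy
      rw [hy', RCLike.inner_apply, mul_comm]
    rw [h2, mul_comm, ← integral_const_mul]
    refine integral_congr_ae (Filter.Eventually.of_forall fun y => ?_)
    simp only
    ring

theorem B_carleman : IsCarleman B := maxOp_isCarleman kB kB_memLp kB_meas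

theorem kB_e (n : ℤ) (x : ℝ) : ∫ y, kB x y * (e n : ℝ → ℂ) y =
    (w n)⁻¹ * (J n).indicator (fun _ => (1 : ℂ)) x := by
  have h1 : ∫ y, kB x y * (e n : ℝ → ℂ) y =
      ∫ y, (J n ∩ J ⌊x⌋).indicator (fun _ => (w ⌊x⌋)⁻¹) y := by
    refine integral_congr_ae ?_
    filter_upwards [e_coe n] with y hy
    rw [hy, kB_eq]
    by_cases h1 : y ∈ J n <;> by_cases h2 : y ∈ J ⌊x⌋ <;> simp [h1, h2]
  rw [h1, integral_indicator ((J_meas n).inter (J_meas _))]
  by_cases hx : ⌊x⌋ = n
  · rw [hx, Set.inter_self, Set.indicator_of_mem ((mem_J _ _).2 hx)]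
    simp [J_vol, Measure.real]
  · have h2 : J n ∩ J ⌊x⌋ = ∅ := by
      ext y
      simp only [Set.mem_inter_iff, mem_J, Set.mem_empty_iff_false, iff_false, not_and]
      intro h3 h4
      exact hx (h4.symm.trans h3)
    rw [h2, Set.indicator_of_notMem (fun h3 => hx ((mem_J _ _).1 h3))]
    simp

theorem e_mem_B (n : ℤ) : e n ∈ B.domain := by
  show MemLp (fun x => ∫ y, kB x y * (e n : ℝ → ℂ) y) 2 volume
  have : (fun x => ∫ y, kB x y * (e n : ℝ → ℂ) y) =
      fun x => (w n)⁻¹ * (J n).indicator (fun _ => (1 : ℂ)) x := funext (kB_e n)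
  rw [this]
  exact (memLp_indicator_const 2 (J_meas _) _ (Or.inr (J_ne _))).const_mul _

theorem B_e (n : ℤ) : B ⟨e n, e_mem_B n⟩ = (w n)⁻¹ • e n := by
  apply Lp.ext
  have h1 : (B ⟨e n, e_mem_B n⟩ : ℝ → ℂ) =ᵐ[volume] fun x => ∫ y, kB x y * (e n : ℝ → ℂ) y :=
    MemLp.coeFn_toLp (e_mem_B n)
  filter_upwards [h1, Lp.coeFn_smul (w n)⁻¹ (e n), e_coe n] with x hx hx2 hx3
  rw [hx, hx2, Pi.smul_apply, hx3, smul_eq_mul, kB_e]

theorem e_mem_AB (n : ℤ) : e n ∈ (prodOp A B).domain :=
  mem_prodOp.2 ⟨e_mem_B n, trivial⟩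

theorem AB_e (n : ℤ) : prodOp A B ⟨e n, e_mem_AB n⟩ = (conj (w n) * (w n)⁻¹) • e 0 := by
  have h1 : prodOp A B ⟨e n, e_mem_AB n⟩ = inner ℂ h (B ⟨e n, e_mem_B n⟩) • e 0 := rfl
  rw [h1, B_e, inner_smul_right, w, inner_conj_symm, mul_comm]

theorem AB_not_carleman : ¬ IsCarleman (prodOp A B) := by
  rintro ⟨K, ⟨-, hK⟩, hAB⟩
  have hall : ∀ᵐ x : ℝ, ∀ n : ℤ, (conj (w n) * (w n)⁻¹) * (J 0).indicator (fun _ => (1 : ℂ)) x =
      ∫ y in J n, K x y := by
    rw [ae_all_iff]
    intro n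
    have h1 := hAB ⟨e n, e_mem_AB n⟩
    rw [AB_e] at h1
    filter_upwards [h1, Lp.coeFn_smul (conj (w n) * (w n)⁻¹) (e 0), e_coe 0] with x hx hx2 hx3
    rw [hx2, Pi.smul_apply, hx3, smul_eq_mul] at hx
    rw [hx, ← integral_indicator (J_meas n)]
    refine integral_congr_ae ?_
    filter_upwards [e_coe n] with y hy
    rw [hy]
    by_cases h1 : y ∈ J n <;> simp [h1]
  have hzero : ∀ᵐ x : ℝ, x ∉ J 0 := by
    filter_upwards [hall, hK] with x hx hKx hx0
    set Kx : E := hKx.toLp _ with hKxdef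
    have h1 : ∀ n : ℤ, inner ℂ (e n) Kx = conj (w n) * (w n)⁻¹ := by
      intro n
      rw [inner_e, setIntegral_congr_ae (J_meas n) (hKx.coeFn_toLp.mono fun y hy _ => hy), ← hx n,
        Set.indicator_of_mem hx0, mul_one]
    have h2 : ∀ n : ℤ, ‖(inner ℂ (e n) Kx : ℂ)‖ ^ 2 = 1 := by
      intro n
      rw [h1, norm_mul, norm_inv, RCLike.norm_conj, mul_inv_cancel₀, one_pow]
      exact norm_ne_zero_iff.2 (w_ne n)
    have h3 := e_orthonormal.inner_products_summable (x := Kx)
    simp only [h2] at h3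
    rw [summable_const_iff] at h3
    exact one_ne_zero h3
  rw [ae_iff] at hzero
  simp only [not_not] at hzero
  have h4 : volume (J 0) = 0 := hzero
  rw [J_vol] at h4
  exact one_ne_zero h4

/-- There are Carleman operators `A`, `B` on `L²(-∞, ∞)` such that `A B` is not a Carleman
operator; here `A` is a bounded rank one operator defined everywhere. -/
theorem result : ∃ A B C : E →ₗ.[ℂ] E,
    IsCarleman A ∧ IsCarleman B ∧ IsProduct A B C ∧ ¬ IsCarleman C :=
  ⟨A, B, prodOp A B, A_carleman, B_carleman, isProduct_prodOp A B, AB_not_carleman⟩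

end Pool.Agent.Results.MP_fd0bc0_an.RankOneTimesBlock
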